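import Pool.Agent.H964.LF.Stm

/-!
# Project LF: many disjoint balls
-/

set_option autoImplicit false

namespace Pool.Agent.H134.LF

open MeasureTheory Pool.Agent.H964.LF
open scoped ENNReal

noncomputable section

variable {d n : ℕ}

/-- good boundary -/
def good (b : ℝ) (ρ : ℕ) (c : Tor d n) (ψ : Tor d n → ℝ) : Prop :=
  ∀ z : Fin d → ℤ, l1 z = ρ → b ≤ ψ (c + zt n z)

lemma abs_le_l1 (z : Fin d → ℤ) (i : Fin d) : |z i| ≤ l1 z :=
  Finset.single_le_sum (f := fun i => |z i|) (fun j _ => abs_nonneg (z j)) (Finset.mem_univ i)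

lemma zt_inj {ρ : ℕ} (hn : 2 * ρ + 2 ≤ 2 * n + 2) {z z' : Fin d → ℤ} (h1 : l1 z ≤ ρ)
    (h2 : l1 z' ≤ ρ) (h : zt n z = zt n z') : z = z' := by
  funext i
  have h3 := congrFun h i
  unfold zt at h3
  rw [ZMod.intCast_eq_intCast_iff_dvd_sub] at h3
  have h4 := abs_le_l1 z i
  have h5 := abs_le_l1 z' i
  by_contra hne
  have h6 := Int.le_of_dvd (abs_pos.2 (sub_ne_zero.2 (Ne.symm hne))) ((dvd_abs _ _).2 h3)
  have h7 : |z' i - z i| ≤ |z' i| + |z i| := abs_sub _ _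
  push_cast at h6
  omega

lemma mem_ball {c v : Tor d n} {ρ : ℕ} :
    v ∈ ball c ρ ↔ ∃ z : Fin d → ℤ, l1 z < ρ ∧ v = c + zt n z := by
  unfold ball
  simp

/-- does not depend on the coordinates in `s` -/
def indep (s : Finset (Tor d n)) (h : (Tor d n → ℝ) → ℝ≥0∞) : Prop :=
  ∀ x y : Tor d n → ℝ, (∀ v, v ∉ s → x v = y v) → h x = h y

lemma good_congr {b : ℝ} {ρ : ℕ} {c : Tor d n} {s : Finset (Tor d n)}
    (hs : ∀ z : Fin d → ℤ, l1 z = ρ → c + zt n z ∉ s) {x y : Tor d n → ℝ}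
    (h : ∀ v, v ∉ s → x v = y v) : good b ρ c x ↔ good b ρ c y := by
  unfold good
  constructor
  · intro hx z hz
    rw [← h _ (hs z hz)]; exact hx z hz
  · intro hx z hz
    rw [h _ (hs z hz)]; exact hx z hz

open Classical in
/-- the constraint at `c` -/
def ph (b : ℝ) (ρ : ℕ) (c : Tor d n) (ψ : Tor d n → ℝ) : ℝ≥0∞ :=
  if good b ρ c ψ ∧ b + ρ / 2 ≤ ψ c then 0 else 1

open Classical in
/-- the factor at `c` -/
def gm (q : ℝ) (b : ℝ) (ρ : ℕ) (c : Tor d n) (ψ : Tor d n → ℝ) : ℝ≥0∞ :=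
  if good b ρ c ψ then ENNReal.ofReal (1 - q) else 1

/-- the indicator of the Lipschitz functions -/
def LI : (Tor d n → ℝ) → ℝ≥0∞ := ({ψ : Tor d n → ℝ | Lip ψ}.indicator 1)

lemma meas_Lip : MeasurableSet {ψ : Tor d n → ℝ | Lip ψ} := by
  have : {ψ : Tor d n → ℝ | Lip ψ} = ⋂ (x : Tor d n), ⋂ (i : Fin d),
      {ψ : Tor d n → ℝ | |ψ (x + Pi.single i 1) - ψ x| ≤ 1} := by
    ext ψ
    simp only [Lip, Set.mem_iInter, Set.mem_ofPred_eq]
  rw [this]
  refine MeasurableSet.iInter fun x => MeasurableSet.iInter fun i => ?_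
  refine measurableSet_le ?_ measurable_const
  fun_prop

lemma meas_good (b : ℝ) (ρ : ℕ) (c : Tor d n) :
    MeasurableSet {ψ : Tor d n → ℝ | good b ρ c ψ} := by
  have : {ψ : Tor d n → ℝ | good b ρ c ψ} = ⋂ (z : Fin d → ℤ), ⋂ (_ : l1 z = ρ),
      {ψ : Tor d n → ℝ | b ≤ ψ (c + zt n z)} := by
    ext ψ
    simp only [good, Set.mem_iInter, Set.mem_ofPred_eq]
  rw [this]
  refine MeasurableSet.iInter fun x => MeasurableSet.iInter fun i => ?_
  exact measurableSet_le measurable_const (measurable_pi_apply _)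

lemma meas_ge (β : ℝ) (c : Tor d n) : MeasurableSet {ψ : Tor d n → ℝ | β ≤ ψ c} :=
  measurableSet_le measurable_const (measurable_pi_apply _)

lemma meas_lt (β : ℝ) (c : Tor d n) : MeasurableSet {ψ : Tor d n → ℝ | ψ c < β} :=
  measurableSet_lt (measurable_pi_apply _) measurable_const

lemma meas_LI : Measurable (LI : (Tor d n → ℝ) → ℝ≥0∞) :=
  measurable_one.indicator meas_Lip

lemma meas_ph (b : ℝ) (ρ : ℕ) (c : Tor d n) : Measurable (ph b ρ c) := by
  unfold ph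
  exact Measurable.ite ((meas_good b ρ c).inter (meas_ge _ c)) measurable_const measurable_const

lemma meas_gm (q b : ℝ) (ρ : ℕ) (c : Tor d n) : Measurable (gm q b ρ c) := by
  unfold gm
  exact Measurable.ite (meas_good b ρ c) measurable_const measurable_const

lemma mg_add (s : Finset (Tor d n)) (f g : (Tor d n → ℝ) → ℝ≥0∞) (hf : Measurable f)
    (x : Tor d n → ℝ) : mg s (fun ψ => f ψ + g ψ) x = mg s f x + mg s g x := by
  unfold mg lmarginal
  exact lintegral_add_left (hf.comp measurable_updateFinset) _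

lemma mg_const_mul (s : Finset (Tor d n)) (a : ℝ≥0∞) (f : (Tor d n → ℝ) → ℝ≥0∞)
    (hf : Measurable f) (x : Tor d n → ℝ) : mg s (fun ψ => a * f ψ) x = a * mg s f x := by
  unfold mg lmarginal
  exact lintegral_const_mul _ (hf.comp measurable_updateFinset)

lemma mg_congr (s : Finset (Tor d n)) (f g : (Tor d n → ℝ) → ℝ≥0∞) (x : Tor d n → ℝ)
    (h : ∀ y : (i : s) → ℝ, f (Function.updateFinset x s y) = g (Function.updateFinset x s y)) :
    mg s f x = mg s g x := by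
  unfold mg lmarginal
  exact lintegral_congr h

/-- one ball: the conditional estimate -/
lemma one_ball (hLOB : S_LOB) (c : Tor d n) (ρ : ℕ) (b : ℝ) (hd : 1 ≤ d) (hρ : 1 ≤ ρ)
    (hn : 2 * ρ + 2 ≤ 2 * n + 2) (x : Tor d n → ℝ) (hx : good b ρ c x) :
    mg (ball c ρ) ({ψ : Tor d n → ℝ | Lip ψ ∧ ψ c < b + ρ / 2}.indicator 1) x ≤
      ENNReal.ofReal (1 - (1 / 4 : ℝ) ^ ((2 * ρ + 1) ^ d)) * mg (ball c ρ) LI x := by
  have h := hLOB d n c ρ b x hd hρ hn hx
  have hq0 : (0 : ℝ) < (1 / 4 : ℝ) ^ ((2 * ρ + 1) ^ d) := by positivity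
  have hq1 : (1 / 4 : ℝ) ^ ((2 * ρ + 1) ^ d) < 1 :=
    pow_lt_one₀ (by norm_num) (by norm_num) (by positivity)
  set q : ℝ := (1 / 4 : ℝ) ^ ((2 * ρ + 1) ^ d) with hq
  have hadd : mg (ball c ρ) LI x =
      mg (ball c ρ) ({ψ : Tor d n → ℝ | Lip ψ ∧ ψ c < b + ρ / 2}.indicator 1) x +
      mg (ball c ρ) ({ψ : Tor d n → ℝ | Lip ψ ∧ b + ρ / 2 ≤ ψ c}.indicator 1) x := by
    have hW : Measurable ({ψ : Tor d n → ℝ | Lip ψ ∧ ψ c < b + ρ / 2}.indicator
        (1 : (Tor d n → ℝ) → ℝ≥0∞)) :=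
      measurable_one.indicator (meas_Lip.inter (meas_lt _ c))
    rw [← mg_add (ball c ρ) _ _ hW x]
    refine mg_congr _ _ _ x fun y => ?_
    unfold LI
    generalize Function.updateFinset x (ball c ρ) y = ψ
    by_cases h1 : Lip ψ
    · by_cases h2 : ψ c < b + ρ / 2
      · rw [Set.indicator_of_mem (show ψ ∈ {ψ : Tor d n → ℝ | Lip ψ} from h1),
          Set.indicator_of_mem (show ψ ∈ {ψ : Tor d n → ℝ | Lip ψ ∧ ψ c < b + ρ / 2} from ⟨h1, h2⟩),
          Set.indicator_of_notMem (show ψ ∉ {ψ : Tor d n → ℝ | Lip ψ ∧ b + ρ / 2 ≤ ψ c} from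
            fun h => absurd h.2 (not_le.2 h2))]
        simp
      · rw [Set.indicator_of_mem (show ψ ∈ {ψ : Tor d n → ℝ | Lip ψ} from h1),
          Set.indicator_of_notMem (show ψ ∉ {ψ : Tor d n → ℝ | Lip ψ ∧ ψ c < b + ρ / 2} from
            fun h => h2 h.2),
          Set.indicator_of_mem (show ψ ∈ {ψ : Tor d n → ℝ | Lip ψ ∧ b + ρ / 2 ≤ ψ c} from
            ⟨h1, not_lt.1 h2⟩)]
        simp
    · rw [Set.indicator_of_notMem (show ψ ∉ {ψ : Tor d n → ℝ | Lip ψ} from h1),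
          Set.indicator_of_notMem (show ψ ∉ {ψ : Tor d n → ℝ | Lip ψ ∧ ψ c < b + ρ / 2} from
            fun h => h1 h.1),
          Set.indicator_of_notMem (show ψ ∉ {ψ : Tor d n → ℝ | Lip ψ ∧ b + ρ / 2 ≤ ψ c} from
            fun h => h1 h.1)]
      simp
  set A := mg (ball c ρ) ({ψ : Tor d n → ℝ | Lip ψ ∧ ψ c < b + ρ / 2}.indicator 1) x with hA
  set B := mg (ball c ρ) ({ψ : Tor d n → ℝ | Lip ψ ∧ b + ρ / 2 ≤ ψ c}.indicator 1) x with hB
  have hLI : mg (ball c ρ) ({ψ : Tor d n → ℝ | Lip ψ}.indicator 1) x = mg (ball c ρ) LI x := rfl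
  rw [hLI] at h
  set D := mg (ball c ρ) LI x with hD
  by_cases hT : D = ⊤
  · rw [hT, ENNReal.mul_top]
    · exact le_top
    · rw [Ne, ENNReal.ofReal_eq_zero, not_le]
      linarith
  · have h1 : A + ENNReal.ofReal q * D ≤ ENNReal.ofReal (1 - q) * D + ENNReal.ofReal q * D := by
      rw [← add_mul, ← ENNReal.ofReal_add (by linarith) hq0.le, sub_add_cancel,
        ENNReal.ofReal_one, one_mul]
      calc A + ENNReal.ofReal q * D ≤ A + B := by gcongr
        _ = D := hadd.symm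
    exact ENNReal.le_of_add_le_add_right (ENNReal.mul_ne_top ENNReal.ofReal_ne_top hT) h1

/-- one ball: the step -/
lemma step (hLOB : S_LOB) (c : Tor d n) (ρ : ℕ) (b : ℝ) (hd : 1 ≤ d) (hρ : 1 ≤ ρ)
    (hn : 2 * ρ + 2 ≤ 2 * n + 2) (h : (Tor d n → ℝ) → ℝ≥0∞) (hm : Measurable h)
    (hdep : indep (ball c ρ) h) :
    ∫⁻ ψ : Tor d n → ℝ, LI ψ * (h ψ * ph b ρ c ψ) ≤
      ∫⁻ ψ : Tor d n → ℝ, LI ψ * (h ψ * gm ((1 / 4 : ℝ) ^ ((2 * ρ + 1) ^ d)) b ρ c ψ) := by
  set q : ℝ := (1 / 4 : ℝ) ^ ((2 * ρ + 1) ^ d) with hq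
  have hf1 : Measurable (fun ψ : Tor d n → ℝ => LI ψ * (h ψ * ph b ρ c ψ)) :=
    meas_LI.mul (hm.mul (meas_ph b ρ c))
  have hf2 : Measurable (fun ψ : Tor d n → ℝ => LI ψ * (h ψ * gm q b ρ c ψ)) :=
    meas_LI.mul (hm.mul (meas_gm q b ρ c))
  have hbd : ∀ z : Fin d → ℤ, l1 z = ρ → c + zt n z ∉ ball c ρ := by
    intro z hz hmem
    obtain ⟨z', hz', he⟩ := mem_ball.1 hmem
    have := zt_inj hn hz.le hz'.le (add_left_cancel he)
    rw [this] at hz
    omega
  rw [volume_pi, lintegral_eq_lmarginal_univ (fun _ => (0 : ℝ)),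
    lintegral_eq_lmarginal_univ (fun _ => (0 : ℝ)),
    ← Finset.sdiff_union_of_subset (Finset.subset_univ (ball c ρ)),
    lmarginal_union _ _ hf1 Finset.sdiff_disjoint, lmarginal_union _ _ hf2 Finset.sdiff_disjoint]
  refine lmarginal_mono (fun x => ?_) _
  -- now a fixed configuration outside the ball
  have hout : ∀ y : (i : ball c ρ) → ℝ, ∀ v, v ∉ ball c ρ →
      Function.updateFinset x (ball c ρ) y v = x v := by
    intro y v hv
    simp [Function.updateFinset, hv]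
  have hgood : ∀ y : (i : ball c ρ) → ℝ,
      (good b ρ c (Function.updateFinset x (ball c ρ) y) ↔ good b ρ c x) := fun y =>
    good_congr hbd (hout y)
  have hh : ∀ y : (i : ball c ρ) → ℝ, h (Function.updateFinset x (ball c ρ) y) = h x := fun y =>
    hdep _ _ (hout y)
  by_cases hx : good b ρ c x
  · have hW : Measurable ({ψ : Tor d n → ℝ | Lip ψ ∧ ψ c < b + ρ / 2}.indicator
        (1 : (Tor d n → ℝ) → ℝ≥0∞)) :=
      measurable_one.indicator (meas_Lip.inter (meas_lt _ c))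
    have e1 : lmarginal (fun _ : Tor d n => (volume : Measure ℝ)) (ball c ρ)
        (fun ψ => LI ψ * (h ψ * ph b ρ c ψ)) x = h x *
        mg (ball c ρ) ({ψ : Tor d n → ℝ | Lip ψ ∧ ψ c < b + ρ / 2}.indicator 1) x := by
      rw [← mg_const_mul (ball c ρ) _ _ hW x]
      refine mg_congr _ _ _ x fun y => ?_
      rw [hh y]
      have hg := (hgood y).2 hx
      generalize Function.updateFinset x (ball c ρ) y = ψ at hg
      unfold LI ph
      by_cases h1 : Lip ψ
      · by_cases h2 : ψ c < b + ρ / 2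
        · rw [Set.indicator_of_mem (show ψ ∈ {ψ : Tor d n → ℝ | Lip ψ} from h1),
            Set.indicator_of_mem (show ψ ∈ {ψ : Tor d n → ℝ | Lip ψ ∧ ψ c < b + ρ / 2} from
              ⟨h1, h2⟩), if_neg (fun h => absurd h.2 (not_le.2 h2))]
          simp
        · rw [Set.indicator_of_notMem (show ψ ∉ {ψ : Tor d n → ℝ | Lip ψ ∧ ψ c < b + ρ / 2} from
              fun h => h2 h.2), if_pos ⟨hg, not_lt.1 h2⟩]
          simp
      · rw [Set.indicator_of_notMem (show ψ ∉ {ψ : Tor d n → ℝ | Lip ψ} from h1),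
            Set.indicator_of_notMem (show ψ ∉ {ψ : Tor d n → ℝ | Lip ψ ∧ ψ c < b + ρ / 2} from
              fun h => h1 h.1)]
        simp
    have e2 : lmarginal (fun _ : Tor d n => (volume : Measure ℝ)) (ball c ρ)
        (fun ψ => LI ψ * (h ψ * gm q b ρ c ψ)) x = h x *
        (ENNReal.ofReal (1 - q) * mg (ball c ρ) LI x) := by
      rw [← mg_const_mul (ball c ρ) _ _ meas_LI x,
        ← mg_const_mul (ball c ρ) _ _ (meas_LI.const_mul _) x]
      refine mg_congr _ _ _ x fun y => ?_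
      rw [hh y]
      have hg := (hgood y).2 hx
      unfold gm
      rw [if_pos hg]
      ring
    rw [e1, e2]
    gcongr
    exact one_ball hLOB c ρ b hd hρ hn x hx
  · refine le_of_eq ?_
    unfold lmarginal
    refine lintegral_congr fun y => ?_
    have hg : ¬ good b ρ c (Function.updateFinset x (ball c ρ) y) := fun h => hx ((hgood y).1 h)
    unfold ph gm
    beta_reduce
    rw [if_neg hg, if_neg (fun h => hg h.1)]

/-- all the balls -/
lemma induct (hLOB : S_LOB) (T : Finset (Tor d n)) (ρ : ℕ) (b : ℝ) (hd : 1 ≤ d) (hρ : 1 ≤ ρ)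
    (hn : 2 * ρ + 2 ≤ 2 * n + 2)
    (hT : ∀ c ∈ T, ∀ c' ∈ T, c ≠ c' → ∀ z z' : Fin d → ℤ, l1 z ≤ ρ → l1 z' ≤ ρ →
      c + zt n z ≠ c' + zt n z') :
    ∀ h : (Tor d n → ℝ) → ℝ≥0∞, Measurable h → (∀ c ∈ T, indep (ball c ρ) h) →
    ∫⁻ ψ : Tor d n → ℝ, LI ψ * (h ψ * ∏ c ∈ T, ph b ρ c ψ) ≤
      ∫⁻ ψ : Tor d n → ℝ, LI ψ * (h ψ *
        ∏ c ∈ T, gm ((1 / 4 : ℝ) ^ ((2 * ρ + 1) ^ d)) b ρ c ψ) := by
  classical
  induction T using Finset.induction_on with
  | empty =>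
    intro h hm _
    simp
  | insert a T ha ih =>
    intro h hm hdep
    set q : ℝ := (1 / 4 : ℝ) ^ ((2 * ρ + 1) ^ d) with hq
    have ih' := ih (fun c hc c' hc' => hT c (Finset.mem_insert_of_mem hc) c'
      (Finset.mem_insert_of_mem hc'))
    have hbd : ∀ c ∈ insert a T, ∀ c' ∈ insert a T, c ≠ c' → ∀ z : Fin d → ℤ, l1 z ≤ ρ →
        c + zt n z ∉ ball c' ρ := by
      intro c hc c' hc' hne z hz hmem
      obtain ⟨z', hz', he⟩ := mem_ball.1 hmem
      exact hT c hc c' hc' hne z z' hz hz'.le he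
    have h0 : (l1 (0 : Fin d → ℤ)) = 0 := by unfold l1; simp
    have hz0 : zt n (0 : Fin d → ℤ) = 0 := by unfold zt; funext i; simp
    have hph : ∀ c ∈ T, indep (ball a ρ) (ph b ρ c) := by
      intro c hc x y hxy
      have hca : c ≠ a := fun h => ha (h ▸ hc)
      have h1 := good_congr (b := b) (c := c) (s := ball a ρ) (ρ := ρ) (fun z hz =>
        hbd c (Finset.mem_insert_of_mem hc) a (Finset.mem_insert_self a T) hca z hz.le) hxy
      have h2 : x c = y c := by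
        apply hxy
        have := hbd c (Finset.mem_insert_of_mem hc) a (Finset.mem_insert_self a T) hca 0
          (by rw [h0]; positivity)
        rwa [hz0, add_zero] at this
      unfold ph
      simp only [h1, h2]
    have e1 : ∀ ψ : Tor d n → ℝ, LI ψ * (h ψ * ∏ c ∈ insert a T, ph b ρ c ψ) =
        LI ψ * ((h ψ * ∏ c ∈ T, ph b ρ c ψ) * ph b ρ a ψ) := by
      intro ψ
      rw [Finset.prod_insert ha]; ring
    have e2 : ∀ ψ : Tor d n → ℝ, LI ψ * ((h ψ * ∏ c ∈ T, ph b ρ c ψ) * gm q b ρ a ψ) =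
        LI ψ * ((h ψ * gm q b ρ a ψ) * ∏ c ∈ T, ph b ρ c ψ) := by
      intro ψ
      ring
    have e3 : ∀ ψ : Tor d n → ℝ, LI ψ * (h ψ * ∏ c ∈ insert a T, gm q b ρ c ψ) =
        LI ψ * ((h ψ * gm q b ρ a ψ) * ∏ c ∈ T, gm q b ρ c ψ) := by
      intro ψ
      rw [Finset.prod_insert ha]; ring
    simp only [e1, e3]
    have hs := step hLOB a ρ b hd hρ hn (fun ψ => h ψ * ∏ c ∈ T, ph b ρ c ψ)
      (hm.mul (Finset.measurable_prod T fun c _ => meas_ph b ρ c)) (by
        intro x y hxy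
        show h x * ∏ c ∈ T, ph b ρ c x = h y * ∏ c ∈ T, ph b ρ c y
        rw [hdep a (Finset.mem_insert_self a T) x y hxy,
          Finset.prod_congr rfl fun c hc => hph c hc x y hxy])
    refine hs.trans ?_
    simp only [← hq, e2]
    refine ih' (fun ψ => h ψ * gm q b ρ a ψ) (hm.mul (meas_gm q b ρ a)) ?_
    intro c hc x y hxy
    show h x * gm q b ρ a x = h y * gm q b ρ a y
    have hca : a ≠ c := fun h => ha (h ▸ hc)
    have h1 := good_congr (b := b) (c := a) (s := ball c ρ) (ρ := ρ) (fun z hz =>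
        hbd a (Finset.mem_insert_self a T) c (Finset.mem_insert_of_mem hc) hca z hz.le) hxy
    rw [hdep c (Finset.mem_insert_of_mem hc) x y hxy]
    unfold gm
    simp only [h1]

open Classical in
/-- **LOWA.** -/
theorem t_LOWA : S_LOB → S_LOWA := by
  intro hLOB d n p T ρ m b hd hρ hn hT hp
  have hq0 : (0 : ℝ) < (1 / 4 : ℝ) ^ ((2 * ρ + 1) ^ d) := by positivity
  have hq1 : (1 / 4 : ℝ) ^ ((2 * ρ + 1) ^ d) < 1 :=
    pow_lt_one₀ (by norm_num) (by norm_num) (by positivity)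
  set q : ℝ := (1 / 4 : ℝ) ^ ((2 * ρ + 1) ^ d) with hq
  have hself : ∀ c : Tor d n, ∀ z : Fin d → ℤ, l1 z = ρ → c + zt n z ∉ ball c ρ := by
    intro c z hz hmem
    obtain ⟨z', hz', he⟩ := mem_ball.1 hmem
    have := zt_inj hn hz.le hz'.le (add_left_cancel he)
    rw [this] at hz
    omega
  have hbd : ∀ c ∈ T, ∀ c' ∈ T, ∀ z : Fin d → ℤ, l1 z = ρ → c + zt n z ∉ ball c' ρ := by
    intro c hc c' hc' z hz
    rcases eq_or_ne c c' with h | h
    · subst h; exact hself c z hz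
    · intro hmem
      obtain ⟨z', hz', he⟩ := mem_ball.1 hmem
      exact hT c hc c' hc' h z z' hz.le hz'.le he
  -- the pin and the number of good balls
  let hf : (Tor d n → ℝ) → ℝ≥0∞ := fun ψ =>
    if |ψ p| ≤ 1 / 2 ∧ m ≤ (T.filter fun c => good b ρ c ψ).card then 1 else 0
  have mcard : MeasurableSet {ψ : Tor d n → ℝ | m ≤ (T.filter fun c => good b ρ c ψ).card} := by
    have : {ψ : Tor d n → ℝ | m ≤ (T.filter fun c => good b ρ c ψ).card} =
        {ψ : Tor d n → ℝ | m ≤ ∑ c ∈ T, if good b ρ c ψ then 1 else 0} := by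
      ext ψ
      simp only [Set.mem_ofPred_eq, Finset.card_filter]
    rw [this]
    refine measurableSet_le measurable_const (Finset.measurable_sum T fun c _ => ?_)
    exact Measurable.ite (meas_good b ρ c) measurable_const measurable_const
  have mpin : MeasurableSet {ψ : Tor d n → ℝ | |ψ p| ≤ 1 / 2} :=
    measurableSet_le (by fun_prop) measurable_const
  have mhf : Measurable hf := Measurable.ite (mpin.inter mcard) measurable_const measurable_const
  have hdep : ∀ c ∈ T, indep (ball c ρ) hf := by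
    intro c hc x y hxy
    have h1 : x p = y p := by
      apply hxy
      intro hmem
      obtain ⟨z, hz, he⟩ := mem_ball.1 hmem
      exact hp c hc z hz he.symm
    have h2 : (T.filter fun c => good b ρ c x) = T.filter fun c => good b ρ c y :=
      Finset.filter_congr fun c' hc' => good_congr (fun z hz => hbd c' hc' c hc z hz) hxy
    show (if |x p| ≤ 1 / 2 ∧ m ≤ (T.filter fun c => good b ρ c x).card then (1 : ℝ≥0∞) else 0) =
      if |y p| ≤ 1 / 2 ∧ m ≤ (T.filter fun c => good b ρ c y).card then 1 else 0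
    rw [h1, h2]
  have hind := induct hLOB T ρ b hd hρ hn hT hf mhf hdep
  have mU : MeasurableSet {ψ : Tor d n → ℝ | Lip ψ ∧ |ψ p| ≤ 1 / 2 ∧ ψ ∈ Set.univ} := by
    have : {ψ : Tor d n → ℝ | Lip ψ ∧ |ψ p| ≤ 1 / 2 ∧ ψ ∈ Set.univ} =
        {ψ : Tor d n → ℝ | Lip ψ} ∩ {ψ : Tor d n → ℝ | |ψ p| ≤ 1 / 2} := by
      ext ψ; simp
    rw [this]
    exact meas_Lip.inter mpin
  set E : Set (Tor d n → ℝ) :=
    {ψ | m ≤ (T.filter fun c => ∀ z : Fin d → ℤ, l1 z = ρ → b ≤ ψ (c + zt n z)).card ∧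
    ∀ c ∈ T, ψ c < b + ρ / 2} with hE
  have mE : MeasurableSet {ψ : Tor d n → ℝ | Lip ψ ∧ |ψ p| ≤ 1 / 2 ∧ ψ ∈ E} := by
    have e1 : {ψ : Tor d n → ℝ | Lip ψ ∧ |ψ p| ≤ 1 / 2 ∧ ψ ∈ E} =
        {ψ : Tor d n → ℝ | Lip ψ} ∩ ({ψ : Tor d n → ℝ | |ψ p| ≤ 1 / 2} ∩
        ({ψ : Tor d n → ℝ | m ≤ (T.filter fun c => good b ρ c ψ).card} ∩
        ⋂ c ∈ T, {ψ : Tor d n → ℝ | ψ c < b + ρ / 2})) := by
      ext ψ
      simp only [hE, Set.mem_ofPred_eq, Set.mem_inter_iff, Set.mem_iInter]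
      rfl
    rw [e1]
    refine meas_Lip.inter (mpin.inter (mcard.inter ?_))
    exact Finset.measurableSet_biInter T fun c _ => meas_lt _ c
  unfold vl
  rw [← lintegral_indicator_one mE, ← lintegral_indicator_one mU,
    ← lintegral_const_mul _ (measurable_one.indicator mU)]
  calc ∫⁻ ψ : Tor d n → ℝ, {ψ : Tor d n → ℝ | Lip ψ ∧ |ψ p| ≤ 1 / 2 ∧ ψ ∈ E}.indicator 1 ψ
      ≤ ∫⁻ ψ : Tor d n → ℝ, LI ψ * (hf ψ * ∏ c ∈ T, ph b ρ c ψ) := by
        refine lintegral_mono fun ψ => ?_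
        by_cases h : ψ ∈ {ψ : Tor d n → ℝ | Lip ψ ∧ |ψ p| ≤ 1 / 2 ∧ ψ ∈ E}
        · rw [Set.indicator_of_mem h]
          obtain ⟨h1, h2, h3, h4⟩ := h
          have e1 : LI ψ = 1 := Set.indicator_of_mem (show ψ ∈ {ψ : Tor d n → ℝ | Lip ψ} from h1) _
          have e2 : hf ψ = 1 := if_pos ⟨h2, h3⟩
          have e3 : ∏ c ∈ T, ph b ρ c ψ = 1 := by
            refine Finset.prod_eq_one fun c hc => ?_
            unfold ph
            rw [if_neg (fun h => absurd h.2 (not_le.2 (h4 c hc)))]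
          rw [e1, e2, e3]
          simp
        · rw [Set.indicator_of_notMem h]
          exact zero_le
    _ ≤ ∫⁻ ψ : Tor d n → ℝ, LI ψ * (hf ψ * ∏ c ∈ T, gm q b ρ c ψ) := hind
    _ ≤ ∫⁻ ψ : Tor d n → ℝ, ENNReal.ofReal ((1 - q) ^ m) *
        {ψ : Tor d n → ℝ | Lip ψ ∧ |ψ p| ≤ 1 / 2 ∧ ψ ∈ Set.univ}.indicator 1 ψ := by
        refine lintegral_mono fun ψ => ?_
        by_cases h1 : Lip ψ
        · by_cases h2 : |ψ p| ≤ 1 / 2 ∧ m ≤ (T.filter fun c => good b ρ c ψ).card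
          · have e1 : LI ψ = 1 :=
              Set.indicator_of_mem (show ψ ∈ {ψ : Tor d n → ℝ | Lip ψ} from h1) _
            have e2 : hf ψ = 1 := if_pos h2
            rw [e1, e2, Set.indicator_of_mem (show ψ ∈ {ψ : Tor d n → ℝ | Lip ψ ∧ |ψ p| ≤ 1 / 2 ∧
              ψ ∈ Set.univ} from ⟨h1, h2.1, trivial⟩)]
            have e3 : ∏ c ∈ T, gm q b ρ c ψ =
                ENNReal.ofReal (1 - q) ^ (T.filter fun c => good b ρ c ψ).card := by
              unfold gm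
              rw [Finset.prod_ite, Finset.prod_const, Finset.prod_const_one, mul_one]
            rw [e3, ENNReal.ofReal_pow (by linarith)]
            simp only [one_mul, Pi.one_apply, mul_one]
            refine pow_le_pow_of_le_one (zero_le) ?_ h2.2
            rw [← ENNReal.ofReal_one]
            exact ENNReal.ofReal_le_ofReal (by linarith)
          · have e2 : hf ψ = 0 := if_neg h2
            rw [e2]
            simp
        · have e1 : LI ψ = 0 :=
            Set.indicator_of_notMem (show ψ ∉ {ψ : Tor d n → ℝ | Lip ψ} from h1) _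
          rw [e1]
          simp

end

end Pool.Agent.H134.LF
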